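import Pool.Agent.Helper96.GU.StF

/-!
# MP_2c90c1_al, project GF, module CTP: the steps of a letter which occurs once or twice
-/

set_option autoImplicit false

namespace Pool.Agent.Helper28.GF

open Pool.Agent.Helper96.UT hiding StTOP TopV TopE tht Bd VC EC
open Pool.Agent.Helper96.GU

private theorem countP_seg_CTP {α : Type} [DecidableEq α] (c : ℤ → α × Bool) (a : α) (k : ℕ) :
    (seg c 0 k).countP (fun x => x.1 = a) =
      ((Finset.range k).filter (fun i : ℕ => (c (i : ℤ)).1 = a)).card := by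
  induction k with
  | zero => simp
  | succ k ih =>
    rw [seg_succ, List.countP_append, ih, Finset.range_add_one, Finset.filter_insert, zero_add]
    by_cases h : (c (k : ℤ)).1 = a
    · rw [if_pos h, Finset.card_insert_of_notMem (by simp)]
      simp [h]
    · rw [if_neg h]
      simp [h]

theorem tCTP : StCTP := by
  intro α _ Z a h1 h2
  rw [countP_seg_CTP] at h1 h2
  have hn : (0 : ℤ) < Z.n := by exact_mod_cast Z.pos
  have hmod : ∀ j : ℤ, (Z.c j).1 = a →
      ∃ i ∈ (Finset.range Z.n).filter (fun i : ℕ => (Z.c (i : ℤ)).1 = a), (Z.n : ℤ) ∣ j - i := by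
    intro j hj
    have e1 : j % (Z.n : ℤ) + (j / (Z.n : ℤ)) * Z.n = j := by
      rw [mul_comm]
      exact Int.emod_add_mul_ediv j Z.n
    have e2 : 0 ≤ j % (Z.n : ℤ) := Int.emod_nonneg j hn.ne'
    have e3 : j % (Z.n : ℤ) < Z.n := Int.emod_lt_of_pos j hn
    have e4 : (((j % (Z.n : ℤ)).toNat : ℕ) : ℤ) = j % (Z.n : ℤ) := Int.toNat_of_nonneg e2
    refine ⟨(j % (Z.n : ℤ)).toNat, ?_, ?_⟩
    · rw [Finset.mem_filter, Finset.mem_range, e4]
      refine ⟨by omega, ?_⟩
      rw [← hj]
      conv_rhs => rw [← e1]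
      rw [Z.per_mul]
    · rw [e4]
      exact ⟨j / (Z.n : ℤ), by linear_combination - e1⟩
  have hmem : ∀ i ∈ (Finset.range Z.n).filter (fun i : ℕ => (Z.c (i : ℤ)).1 = a),
      (Z.c (i : ℤ)).1 = a := fun i hi => (Finset.mem_filter.1 hi).2
  generalize (Finset.range Z.n).filter (fun i : ℕ => (Z.c (i : ℤ)).1 = a) = T at *
  have h3 : T.card = 1 ∨ T.card = 2 := by omega
  rcases h3 with h | h
  · obtain ⟨x, rfl⟩ := Finset.card_eq_one.1 h
    refine ⟨x, x, hmem x (by simp), hmem x (by simp), ?_⟩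
    intro j hj
    obtain ⟨i, hi, hd⟩ := hmod j hj
    rw [Finset.mem_singleton] at hi
    subst hi
    exact Or.inl hd
  · obtain ⟨x, y, -, rfl⟩ := Finset.card_eq_two.1 h
    refine ⟨x, y, hmem x (by simp), hmem y (by simp), ?_⟩
    intro j hj
    obtain ⟨i, hi, hd⟩ := hmod j hj
    rw [Finset.mem_insert, Finset.mem_singleton] at hi
    rcases hi with rfl | rfl
    · exact Or.inl hd
    · exact Or.inr hd

end Pool.Agent.Helper28.GF
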